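import Mathlib
import Pool.Agent.Helper59.BA6
import Pool.Agent.Helper59.BA10
import Pool.Agent.Helper59.AC5

set_option autoImplicit false

namespace Pool.Agent.Results.MP_10b086_an.EightOfTen

universe u

section
variable (A : Type u) [NonUnitalNormedRing A] [NormedSpace ℂ A]

/-- `A²` -/
def Sq : Submodule ℂ A := Submodule.span ℂ {z : A | ∃ a b, z = a * b}

/-- `A³` -/
def Cube : Submodule ℂ A := Submodule.span ℂ {z : A | ∃ a b c, z = a * b * c}

def H1 : Prop := Sq A = ⊤

def H2 : Prop := IsClosed (Cube A : Set A) ∧ FiniteDimensional ℂ (A ⧸ Cube A)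

def H3 : Prop := TopologicalSpace.SeparableSpace A ∧ Sq A = ⊤

def H4 : Prop := TopologicalSpace.SeparableSpace A ∧ FiniteDimensional ℂ (A ⧸ Sq A)

/-- every positive functional is continuous -/
def PositiveContinuous [StarRing A] : Prop :=
  ∀ f : A →ₗ[ℂ] ℂ, (∀ a, 0 ≤ (f (star a * a)).re ∧ (f (star a * a)).im = 0) → Continuous f

/-- every trace is continuous -/
def TracesContinuous [StarRing A] : Prop :=
  ∀ f : A →ₗ[ℂ] ℂ, (∀ a, 0 ≤ (f (star a * a)).re ∧ (f (star a * a)).im = 0) →
    (∀ a b, f (a * b) = f (b * a)) → Continuous f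
end

/-- (1) every trace is continuous under (H1)-(H4);
(2) every positive functional is continuous under (H3) and (H4) if the involution is continuous;
(3) some Banach *-algebra with isometric involution satisfying (H1) and (H2) has a
discontinuous positive functional. -/
theorem result :
    (∀ (A : Type u) [NonUnitalNormedRing A] [NormedSpace ℂ A] [IsScalarTower ℂ A A]
      [SMulCommClass ℂ A A] [CompleteSpace A] [StarRing A] [StarModule ℂ A],
      H1 A ∨ H2 A ∨ H3 A ∨ H4 A → TracesContinuous A) ∧
    (∀ (A : Type u) [NonUnitalNormedRing A] [NormedSpace ℂ A] [IsScalarTower ℂ A A]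
      [SMulCommClass ℂ A A] [CompleteSpace A] [StarRing A] [StarModule ℂ A],
      Continuous (star : A → A) → H3 A ∨ H4 A → PositiveContinuous A) ∧
    (∃ (A : Type) (_ : NonUnitalNormedRing A) (_ : NormedSpace ℂ A)
      (_ : IsScalarTower ℂ A A) (_ : SMulCommClass ℂ A A) (_ : CompleteSpace A) (_ : StarRing A)
      (_ : StarModule ℂ A),
      (∀ a : A, ‖star a‖ = ‖a‖) ∧ H1 A ∧ H2 A ∧ ¬ PositiveContinuous A) := by
  refine ⟨?_, ?_, ?_⟩
  · intro A _ _ _ _ _ _ _ h f hpos htr
    exact Pool.Agent.Helper59.BA10.traces h f hpos htr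
  · intro A _ _ _ _ _ _ _ hstar h f hpos
    have hsep : TopologicalSpace.SeparableSpace A := by
      rcases h with h | h
      · exact h.1
      · exact h.1
    have hfin : FiniteDimensional ℂ (A ⧸ Sq A) := by
      rcases h with h | h
      · rw [h.2]; infer_instance
      · exact h.2
    exact Pool.Agent.Helper59.AC.positive_continuous hfin hstar f hpos
  · obtain ⟨A, i1, i2, i3, i4, i5, i6, i7, h1, h2, h3, f, h4, h5⟩ :=
      Pool.Agent.Helper59.BA6.counterexample
    refine ⟨A, i1, i2, i3, i4, i5, i6, i7, h1, h2, ⟨?_, ?_⟩, fun h => h5 (h f h4)⟩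
    · have : Cube A = ⊤ := h3
      rw [this]
      exact isClosed_univ
    · have : Cube A = ⊤ := h3
      rw [this]
      infer_instance

end Pool.Agent.Results.MP_10b086_an.EightOfTen
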