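import Mathlib
import Pool.Agent.Helper59.AC5

set_option autoImplicit false

namespace Pool.Agent.Results.MP_10b086_an.Separable

universe u

/-- Every positive functional on a separable Banach *-algebra `A` with continuous involution and
`A²` of finite codimension (in particular whenever `A = A²`) is continuous. -/
theorem result (A : Type u) [NonUnitalNormedRing A] [NormedSpace ℂ A] [IsScalarTower ℂ A A]
    [SMulCommClass ℂ A A] [CompleteSpace A] [StarRing A] [StarModule ℂ A]
    [TopologicalSpace.SeparableSpace A]
    (hstar : Continuous (star : A → A))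
    (A2 : Submodule ℂ A) (hA2 : A2 = Submodule.span ℂ {z : A | ∃ a b, z = a * b})
    (h : A2 = ⊤ ∨ FiniteDimensional ℂ (A ⧸ A2))
    (f : A →ₗ[ℂ] ℂ) (hpos : ∀ a, 0 ≤ (f (star a * a)).re ∧ (f (star a * a)).im = 0) :
    Continuous f := by
  have hfin : FiniteDimensional ℂ (A ⧸ A2) := by
    rcases h with h | h
    · rw [h]; infer_instance
    · exact h
  subst hA2
  exact Pool.Agent.Helper59.AC.positive_continuous hfin hstar f hpos

end Pool.Agent.Results.MP_10b086_an.Separable
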