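import Mathlib
import Pool.Agent.Helper59.BA6
import Pool.Agent.Helper59.BA10

set_option autoImplicit false

namespace Pool.Agent.Results.MP_10b086_an.SixOfTen

universe u

/-- For (H1) and (H2) both parts (a), (b) are answered, for (H3) and (H4) part (b):
every trace is continuous under (H1)-(H4), while some Banach *-algebra with `A = A² = A³`
(so satisfying (H1) and (H2)) has a discontinuous positive functional. -/
theorem result :
    (∀ (A : Type u) [NonUnitalNormedRing A] [NormedSpace ℂ A] [IsScalarTower ℂ A A]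
      [SMulCommClass ℂ A A] [CompleteSpace A] [StarRing A] [StarModule ℂ A]
      (A2 A3 : Submodule ℂ A), A2 = Submodule.span ℂ {z : A | ∃ a b, z = a * b} →
      A3 = Submodule.span ℂ {z : A | ∃ a b c, z = a * b * c} →
      (A2 = ⊤ ∨ (IsClosed (A3 : Set A) ∧ FiniteDimensional ℂ (A ⧸ A3)) ∨
        (TopologicalSpace.SeparableSpace A ∧ A2 = ⊤) ∨
        (TopologicalSpace.SeparableSpace A ∧ FiniteDimensional ℂ (A ⧸ A2))) →
      ∀ f : A →ₗ[ℂ] ℂ, (∀ a, 0 ≤ (f (star a * a)).re ∧ (f (star a * a)).im = 0) →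
        (∀ a b, f (a * b) = f (b * a)) → Continuous f) ∧
    (∃ (A : Type) (_ : NonUnitalNormedRing A) (_ : NormedSpace ℂ A)
      (_ : IsScalarTower ℂ A A) (_ : SMulCommClass ℂ A A) (_ : CompleteSpace A) (_ : StarRing A)
      (_ : StarModule ℂ A),
      (∀ a : A, ‖star a‖ = ‖a‖) ∧
      Submodule.span ℂ {z : A | ∃ a b, z = a * b} = ⊤ ∧
      Submodule.span ℂ {z : A | ∃ a b c, z = a * b * c} = ⊤ ∧
      ∃ f : A →ₗ[ℂ] ℂ, (∀ a, 0 ≤ (f (star a * a)).re ∧ (f (star a * a)).im = 0) ∧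
        ¬ Continuous f) := by
  refine ⟨?_, Pool.Agent.Helper59.BA6.counterexample⟩
  intro A _ _ _ _ _ _ _ A2 A3 hA2 hA3 h f hpos htr
  subst hA2 hA3
  exact Pool.Agent.Helper59.BA10.traces h f hpos htr

end Pool.Agent.Results.MP_10b086_an.SixOfTen
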