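import Mathlib
import Pool.Agent.Helper59.BA10

set_option autoImplicit false

namespace Pool.Agent.Results.MP_10b086_an.Traces

universe u

/-- Every trace on a Banach *-algebra satisfying (H1), (H2), (H3) or (H4) is continuous. -/
theorem result (A : Type u) [NonUnitalNormedRing A] [NormedSpace ℂ A] [IsScalarTower ℂ A A]
    [SMulCommClass ℂ A A] [CompleteSpace A] [StarRing A] [StarModule ℂ A]
    (A2 A3 : Submodule ℂ A) (hA2 : A2 = Submodule.span ℂ {z : A | ∃ a b, z = a * b})
    (hA3 : A3 = Submodule.span ℂ {z : A | ∃ a b c, z = a * b * c})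
    (h : A2 = ⊤ ∨ (IsClosed (A3 : Set A) ∧ FiniteDimensional ℂ (A ⧸ A3)) ∨
      (TopologicalSpace.SeparableSpace A ∧ A2 = ⊤) ∨
      (TopologicalSpace.SeparableSpace A ∧ FiniteDimensional ℂ (A ⧸ A2)))
    (f : A →ₗ[ℂ] ℂ) (hpos : ∀ a, 0 ≤ (f (star a * a)).re ∧ (f (star a * a)).im = 0)
    (htr : ∀ a b, f (a * b) = f (b * a)) : Continuous f := by
  subst hA2 hA3
  exact Pool.Agent.Helper59.BA10.traces h f hpos htr

end Pool.Agent.Results.MP_10b086_an.Traces
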